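import Mathlib
import Pool.Agent.R621.HS.Force3

set_option autoImplicit false

/-!
# A computably categorical structure that is not relatively hyperarithmetically categorical
-/

namespace Pool.Agent.Results.MP_1b6964_lc.NotRelHyp

open Pool.Agent.Helper941.Dim Pool.Agent.R621.HS

/-- The predicate `P` is hyperarithmetic in the set `X`, that is, `P` and its complement are
`Σ¹₁` relative to `X`. -/
def HypIn {α : Type} [Primcodable α] (X : ℕ → Prop) (P : α → Prop) : Prop :=
  Sigma11In X P ∧ Sigma11In X fun a => ¬ P a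

/-- `A` is computably categorical: any two computable copies are computably isomorphic. -/
def CompCat (A : Str) : Prop := ∀ B C, IsCopy A B → IsCopy A C → CompIso B C

/-- `A` is relatively hyperarithmetically categorical: for every copy `B` of `A` there is an
isomorphism from `A` onto `B` whose graph is hyperarithmetic in the atomic diagram of `B`. -/
def RelHypCat (A : Str) : Prop := ∀ B : Str, (∃ f : ℕ ≃ ℕ, IsIso A B f) →
  ∃ f : ℕ ≃ ℕ, IsIso A B f ∧ HypIn (DgN B) fun a : ℕ × ℕ => f a.1 = a.2

/-- A check of the definition of relative hyperarithmeticity: computable predicates and the set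
`X` itself are hyperarithmetic in `X`. -/
theorem hypIn_self (X : ℕ → Prop) : HypIn X X := by
  classical
  have h1 : Computable fun p : ℕ × List ℕ × List ℕ => Pool.Agent.Helper941.Hyp.gt p.2.1 p.1 :=
    Pool.Agent.Helper941.Hyp.c_gt (Computable.fst.comp Computable.snd) Computable.fst
  have h2 : Computable fun p : ℕ × List ℕ × List ℕ => p.2.1.length :=
    Computable.list_length.comp (Computable.fst.comp Computable.snd)
  have h3 : ComputablePred fun p : ℕ × List ℕ × List ℕ => p.1 < p.2.1.length →
      Pool.Agent.Helper941.Hyp.gt p.2.1 p.1 = 1 :=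
    Pool.Agent.Helper941.Zeta.p_imp (Pool.Agent.Helper941.Zeta.p_lt Computable.fst h2)
      (Pool.Agent.Helper941.Zeta.p_eq h1 (Pool.Agent.Helper941.Zeta.c_const 1))
  have h4 : ComputablePred fun p : ℕ × List ℕ × List ℕ => p.1 < p.2.1.length →
      ¬ Pool.Agent.Helper941.Hyp.gt p.2.1 p.1 = 1 :=
    Pool.Agent.Helper941.Zeta.p_imp (Pool.Agent.Helper941.Zeta.p_lt Computable.fst h2)
      (Pool.Agent.Helper941.Zeta.p_not
        (Pool.Agent.Helper941.Zeta.p_eq h1 (Pool.Agent.Helper941.Zeta.c_const 1)))
  have h5 : ∀ a n, a < n → Pool.Agent.Helper941.Hyp.gt ((List.range n).map (chi X)) a = chi X a :=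
    fun a n h => Pool.Agent.Helper941.Hyp.gt_range _ h
  have h6 : ∀ a, chi X a = 1 ↔ X a := by
    intro a
    unfold chi
    by_cases h : X a <;> simp [h]
  constructor
  · refine ⟨_, h3, fun a => ⟨fun h => ⟨fun _ => 0, fun n hn => ?_⟩, ?_⟩⟩
    · simp only [List.length_map, List.length_range] at hn
      show Pool.Agent.Helper941.Hyp.gt ((List.range n).map (chi X)) a = 1
      rw [h5 _ _ hn, h6]
      exact h
    · rintro ⟨f, hf⟩
      have h7 := hf (a + 1) (by simp)
      have h8 : Pool.Agent.Helper941.Hyp.gt ((List.range (a + 1)).map (chi X)) a = 1 := h7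
      rw [h5 _ _ (by omega), h6] at h8
      exact h8
  · refine ⟨_, h4, fun a => ⟨fun h => ⟨fun _ => 0, fun n hn => ?_⟩, ?_⟩⟩
    · simp only [List.length_map, List.length_range] at hn
      show ¬ Pool.Agent.Helper941.Hyp.gt ((List.range n).map (chi X)) a = 1
      rw [h5 _ _ hn, h6]
      exact h
    · rintro ⟨f, hf⟩
      have h7 := hf (a + 1) (by simp)
      have h8 : ¬ Pool.Agent.Helper941.Hyp.gt ((List.range (a + 1)).map (chi X)) a = 1 := h7
      rw [h5 _ _ (by omega), h6] at h8
      exact h8

/-- There is a computable structure that is computably categorical but not relatively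
hyperarithmetically categorical. -/
theorem result : ∃ A : Str, IsComp A ∧ CompCat A ∧ ¬ RelHypCat A := by
  refine ⟨AA, aa_comp, fun B C hB hC => ?_, fun h => ?_⟩
  · obtain ⟨f, hf, hfc⟩ := cc_aa hB.1 hB.2
    obtain ⟨g, hg, hgc⟩ := cc_aa hC.1 hC.2
    refine ⟨f.symm.trans g, fun i x y => ?_, hgc.comp (computable_symm hfc)⟩
    have h1 := hf i (f.symm x) (f.symm y)
    rw [f.apply_symm_apply, f.apply_symm_apply] at h1
    exact h1.symm.trans (hg i _ _)
  · refine not_hyp fun g => ?_
    obtain ⟨f, hf, hf2⟩ := h (Pull AA g) ⟨g.symm, fun i x y => by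
      show AA i x y ↔ AA i (g (g.symm x)) (g (g.symm y))
      rw [g.apply_symm_apply, g.apply_symm_apply]⟩
    exact ⟨f, hf, hf2.1⟩

end Pool.Agent.Results.MP_1b6964_lc.NotRelHyp
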